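import Mathlib

/-!
The sum of the monic divisors in `k[T]`: multiplicativity and valuations.
-/

open Finset Polynomial UniqueFactorizationMonoid

open scoped Classical

namespace Pool.Agent.Lib.MP_253cbc_nt.FF

variable {k : Type} [Field k]

/-- The sum of the monic divisors. -/
noncomputable def sig (x : k[X]) : k[X] := ∑ᶠ d ∈ {d : k[X] | d.Monic ∧ d ∣ x}, d

/-- The sum `1 + Q + ... + Q ^ a`. -/
noncomputable def geo (Q : k[X]) (a : ℕ) : k[X] := ∑ i ∈ range (a + 1), Q ^ i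

/-- The exponent of `P` in `f`. -/
noncomputable def v (P f : k[X]) : ℕ := (normalizedFactors f).count P

lemma fin_div {x : k[X]} (hx : x ≠ 0) : {d : k[X] | d.Monic ∧ d ∣ x}.Finite := by
  have h1 := Polynomial.fintypeSubtypeMonicDvd x hx
  have h2 : Finite {d : k[X] // d.Monic ∧ d ∣ x} := Finite.of_fintype _
  exact Set.finite_coe_iff.1 h2

lemma sig_eq {x : k[X]} (hx : x ≠ 0) : sig x = ∑ d ∈ (fin_div hx).toFinset, d := by
  rw [sig, finsum_mem_eq_finite_toFinset_sum _ (fin_div hx)]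

lemma sig_one : sig (1 : k[X]) = 1 := by
  rw [sig_eq one_ne_zero]
  have : (fin_div (one_ne_zero : (1 : k[X]) ≠ 0)).toFinset = {1} := by
    ext d
    simp only [Set.Finite.mem_toFinset, Set.mem_ofPred_eq, mem_singleton]
    constructor
    · rintro ⟨h1, h2⟩
      exact h1.isUnit_iff.1 (isUnit_of_dvd_one h2)
    · rintro rfl
      exact ⟨monic_one, dvd_rfl⟩
  rw [this, sum_singleton]

lemma sig_mul {P y : k[X]} (hP : P.Monic) (hPi : Irreducible P) (hy : y.Monic) (hPy : ¬ P ∣ y)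
    (a : ℕ) : sig (P ^ a * y) = geo P a * sig y := by
  have h0 : P ^ a * y ≠ 0 := ((hP.pow a).mul hy).ne_zero
  rw [sig_eq h0, sig_eq hy.ne_zero, geo, sum_mul_sum, ← sum_product']
  symm
  refine sum_bij (fun z _ => P ^ z.1 * z.2) ?_ ?_ ?_ (fun _ _ => rfl)
  · rintro ⟨i, e⟩ hz
    simp only [mem_product, mem_range, Set.Finite.mem_toFinset, Set.mem_ofPred_eq] at hz ⊢
    exact ⟨(hP.pow i).mul hz.2.1, mul_dvd_mul (pow_dvd_pow _ (by omega)) hz.2.2⟩
  · have key : ∀ (i j : ℕ) (e e' : k[X]), e ∣ y → P ^ i * e = P ^ j * e' → j ≤ i := by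
      intro i j e e' he h
      by_contra hij
      obtain ⟨m, rfl⟩ : ∃ m, j = i + (m + 1) := ⟨j - i - 1, by omega⟩
      rw [pow_add, mul_assoc] at h
      have h2 := mul_left_cancel₀ (pow_ne_zero i hP.ne_zero) h
      exact hPy (Dvd.dvd.trans ⟨P ^ m * e', by rw [h2]; ring⟩ he)
    rintro ⟨i, e⟩ hz ⟨j, e'⟩ hz' h
    simp only [mem_product, mem_range, Set.Finite.mem_toFinset, Set.mem_ofPred_eq] at hz hz' h
    obtain rfl : i = j := le_antisymm (key j i e' e hz'.2.2 h.symm) (key i j e e' hz.2.2 h)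
    rw [mul_left_cancel₀ (pow_ne_zero i hP.ne_zero) h]
  · intro d hd
    simp only [Set.Finite.mem_toFinset, Set.mem_ofPred_eq] at hd
    obtain ⟨d1, d2, h1, h2, rfl⟩ := exists_dvd_and_dvd_of_dvd_mul hd.2
    obtain ⟨i, hi, u, hu⟩ := (dvd_prime_pow hPi.prime a).1 h1
    obtain ⟨e, h3, h4⟩ : ∃ e : k[X], d1 * d2 = P ^ i * e ∧ e ∣ y :=
      ⟨↑u⁻¹ * d2, by rw [← hu, mul_assoc, ← mul_assoc (u : k[X]), Units.mul_inv, one_mul],
        Dvd.dvd.trans ⟨↑u, by rw [mul_comm, ← mul_assoc, Units.mul_inv, one_mul]⟩ h2⟩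
    have h5 : e.Monic := by
      have h6 := hd.1
      rw [h3] at h6
      exact (hP.pow i).of_mul_monic_left h6
    refine ⟨(i, e), ?_, h3.symm⟩
    simp only [mem_product, mem_range, Set.Finite.mem_toFinset, Set.mem_ofPred_eq]
    exact ⟨by omega, h5, h4⟩

lemma eq_of_dvd {P Q : k[X]} (hP : P.Monic) (hPi : Irreducible P) (hQ : Q.Monic)
    (hQi : Irreducible Q) (h : P ∣ Q) : P = Q :=
  eq_of_monic_of_associated hP hQ (hPi.associated_of_dvd hQi h)

lemma sig_prod (a : k[X] → ℕ) (S : Finset k[X]) (hS : ∀ P ∈ S, P.Monic ∧ Irreducible P) :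
    sig (∏ P ∈ S, P ^ a P) = ∏ P ∈ S, geo P (a P) := by
  induction S using Finset.induction_on with
  | empty => simpa using sig_one
  | insert P S hP ih =>
    have h1 := hS P (mem_insert_self _ _)
    have h2 : ∀ Q ∈ S, Q.Monic ∧ Irreducible Q := fun Q hQ => hS Q (mem_insert_of_mem hQ)
    rw [prod_insert hP, prod_insert hP, sig_mul h1.1 h1.2
      (monic_prod_of_monic _ _ fun Q hQ => (h2 Q hQ).1.pow _) _, ih h2]
    intro h
    obtain ⟨Q, hQ, h3⟩ := (Prime.dvd_finsetProd_iff h1.2.prime _).1 h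
    exact hP (eq_of_dvd h1.1 h1.2 (h2 Q hQ).1 (h2 Q hQ).2 (h1.2.prime.dvd_of_dvd_pow h3) ▸ hQ)

lemma geo_spec {Q : k[X]} (hQ : Q.Monic) (hd : 0 < Q.natDegree) (a : ℕ) :
    (geo Q a).Monic ∧ (geo Q a).natDegree = a * Q.natDegree := by
  induction a with
  | zero => simp [geo]
  | succ a ih =>
    have h1 : geo Q (a + 1) = Q ^ (a + 1) + geo Q a := by
      rw [geo, sum_range_succ, add_comm]; rfl
    have h2 : (geo Q a).natDegree < (Q ^ (a + 1)).natDegree := by
      rw [ih.2, hQ.natDegree_pow]; nlinarith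
    rw [h1]
    exact ⟨(hQ.pow _).add_of_left (degree_lt_degree h2),
      by rw [natDegree_add_eq_left_of_natDegree_lt h2, hQ.natDegree_pow]⟩

lemma v_mul (P : k[X]) {f g : k[X]} (hf : f ≠ 0) (hg : g ≠ 0) : v P (f * g) = v P f + v P g := by
  rw [v, normalizedFactors_mul hf hg, Multiset.count_add]; rfl

lemma v_one (P : k[X]) : v P 1 = 0 := by simp [v]

lemma v_prod (P : k[X]) {ι : Type} (S : Finset ι) (f : ι → k[X]) (hf : ∀ i ∈ S, f i ≠ 0) :
    v P (∏ i ∈ S, f i) = ∑ i ∈ S, v P (f i) := by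
  induction S using Finset.induction_on with
  | empty => simp [v_one]
  | insert i S hi ih =>
    rw [prod_insert hi, sum_insert hi, v_mul P (hf i (mem_insert_self _ _))
      (prod_ne_zero_iff.2 fun j hj => hf j (mem_insert_of_mem hj)),
      ih fun j hj => hf j (mem_insert_of_mem hj)]

lemma v_ne_zero {P f : k[X]} (hf : f ≠ 0) :
    v P f ≠ 0 ↔ Irreducible P ∧ P.Monic ∧ P ∣ f := by
  rw [v, Multiset.count_ne_zero, Polynomial.mem_normalizedFactors_iff hf]

lemma eq_prod {x : k[X]} (hx : x.Monic) (S : Finset k[X]) (hS : ∀ P, v P x ≠ 0 → P ∈ S) :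
    x = ∏ P ∈ S, P ^ v P x := by
  have h1 := prod_multiset_count_of_subset (normalizedFactors x) S fun P hP =>
    hS P (Multiset.count_ne_zero.2 (Multiset.mem_toFinset.1 hP))
  rw [prod_normalizedFactors_eq hx.ne_zero, hx.normalize_eq_self] at h1
  exact h1

lemma sum_v_le {f : k[X]} (hf : f.Monic) (S : Finset k[X]) :
    ∑ P ∈ S, v P f * P.natDegree ≤ f.natDegree := by
  set T := (normalizedFactors f).toFinset with hT
  have h1 : ∀ P, v P f ≠ 0 ↔ P ∈ T := fun P => by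
    rw [hT, Multiset.mem_toFinset, v, Multiset.count_ne_zero]
  have h2 := eq_prod hf T fun P hP => (h1 P).1 hP
  have h3 : f.natDegree = ∑ P ∈ T, v P f * P.natDegree := by
    conv_lhs => rw [h2]
    rw [natDegree_prod_of_monic _ _ fun P hP => ((v_ne_zero hf.ne_zero).1 ((h1 P).2 hP)).2.1.pow _]
    exact sum_congr rfl fun P _ => natDegree_pow _ _
  rw [h3, ← sum_filter_of_ne (p := fun P => P ∈ T) fun P _ h => (h1 P).1 (by
    intro h0; rw [h0] at h; exact h (zero_mul _))]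
  exact sum_le_sum_of_subset fun P hP => (mem_filter.1 hP).2

lemma v_geo_self {P : k[X]} (hP : P.Monic) (hPi : Irreducible P) (a : ℕ) : v P (geo P a) = 0 := by
  by_contra h
  have h1 := ((v_ne_zero (geo_spec hP hPi.natDegree_pos a).1.ne_zero).1 h).2.2
  rw [geo, sum_range_succ', pow_zero] at h1
  exact hPi.not_dvd_one ((dvd_add_right (dvd_sum fun i _ => dvd_pow_self P i.succ_ne_zero)).1 h1)

lemma v_irred {P Q : k[X]} (hQ : Q.Monic) (hQi : Irreducible Q) :
    v P Q = if P = Q then 1 else 0 := by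
  rw [v, normalizedFactors_irreducible hQi, hQ.normalize_eq_self, Multiset.count_singleton]

/-- The prime factors of `n`. -/
noncomputable def pr (n : k[X]) : Finset k[X] := (normalizedFactors n).toFinset

lemma mem_pr {n P : k[X]} (hn : n ≠ 0) : P ∈ pr n ↔ Irreducible P ∧ P.Monic ∧ P ∣ n := by
  rw [pr, Multiset.mem_toFinset, Polynomial.mem_normalizedFactors_iff hn]

lemma sol_prod {x n : k[X]} (hn : n ≠ 0) (hx : x.Monic) (h : x * sig x = n) :
    x = ∏ P ∈ pr n, P ^ v P x :=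
  eq_prod hx _ fun P hP => by
    have h1 := (v_ne_zero hx.ne_zero).1 hP
    exact (mem_pr hn).2 ⟨h1.1, h1.2.1, h1.2.2.trans ⟨_, h.symm⟩⟩

lemma sol_sig {x n : k[X]} (hn : n ≠ 0) (hx : x.Monic) (h : x * sig x = n) :
    sig x = ∏ P ∈ pr n, geo P (v P x) := by
  conv_lhs => rw [sol_prod hn hx h]
  exact sig_prod _ _ fun P hP => ⟨((mem_pr hn).1 hP).2.1, ((mem_pr hn).1 hP).1⟩

lemma val_eq {x n : k[X]} (hn : n ≠ 0) (hx : x.Monic) (h : x * sig x = n) (P : k[X]) :
    v P n = v P x + ∑ Q ∈ pr n, v P (geo Q (v Q x)) := by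
  have h1 : sig x ≠ 0 := fun h0 => hn (by rw [← h, h0, mul_zero])
  conv_lhs => rw [← h, v_mul P hx.ne_zero h1, sol_sig hn hx h]
  rw [v_prod P _ _ fun Q hQ =>
    (geo_spec ((mem_pr hn).1 hQ).2.1 ((mem_pr hn).1 hQ).1.natDegree_pos _).1.ne_zero]

lemma sol_deg {x n : k[X]} (hn : n ≠ 0) (hx : x.Monic) (h : x * sig x = n) :
    n.natDegree = 2 * x.natDegree := by
  have h1 : sig x ≠ 0 := fun h0 => hn (by rw [← h, h0, mul_zero])
  have h2 : (sig x).natDegree = x.natDegree := by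
    have h3 := fun P (hP : P ∈ pr n) =>
      geo_spec ((mem_pr hn).1 hP).2.1 ((mem_pr hn).1 hP).1.natDegree_pos (v P x)
    rw [sol_sig hn hx h, natDegree_prod_of_monic _ _ fun P hP => (h3 P hP).1]
    conv_rhs => rw [sol_prod hn hx h]
    rw [natDegree_prod_of_monic _ _ fun P hP => ((mem_pr hn).1 hP).2.1.pow _]
    exact sum_congr rfl fun P hP => by rw [(h3 P hP).2, natDegree_pow]
  rw [← h, natDegree_mul hx.ne_zero h1, h2, two_mul]

end Pool.Agent.Lib.MP_253cbc_nt.FF
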