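import Pool.Agent.Lib.MP_253cbc_nt.FF.Basic

/-!
A Kraft type inequality for the solutions of `x * sig x = n` in `k[T]`, characteristic two.
The exponents 0 and 1 of a prime `P` with `P + 1` prime are merged into one letter.
-/

open Finset Polynomial UniqueFactorizationMonoid

open scoped Classical

namespace Pool.Agent.Lib.MP_253cbc_nt.FF

lemma kraft {α ι κ : Type} [LinearOrder κ] (ρ : ι → κ) (A r : α → ι → ℕ) (ω : ι → ℕ → ℕ → ℝ)
    (W : α → ℝ) (h0 : ∀ p j s, 0 ≤ ω p j s) (h1 : ∀ p s, ∑ j ∈ range (s + 1), ω p j s ≤ 1)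
    (P : Finset ι) : ∀ X : Finset α,
    (∀ x ∈ X, ∀ p ∈ P, A x p ≤ r x p) →
    (∀ x ∈ X, ∀ x' ∈ X, ∀ p ∈ P, (∀ q ∈ P, ρ p < ρ q → A x q = A x' q) → r x p = r x' p) →
    (∀ Y ⊆ X, (∀ x ∈ Y, ∀ x' ∈ Y, ∀ q ∈ P, A x q = A x' q) → ∑ x ∈ Y, W x ≤ 1) →
    ∑ x ∈ X, W x * ∏ p ∈ P, ω p (A x p) (r x p) ≤ 1 := by
  induction P using Finset.induction_on_max_value ρ with
  | empty =>
    intro X _ _ h
    simpa using h X Subset.rfl (by simp)
  | insert m P hmP hm ih =>
    intro X h2 h3 h4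
    rcases X.eq_empty_or_nonempty with rfl | ⟨x0, hx0⟩
    · simp
    have hr : ∀ x ∈ X, r x m = r x0 m := fun x hx =>
      h3 x hx x0 hx0 m (mem_insert_self _ _) fun q hq hmq => by
        rcases mem_insert.1 hq with rfl | hq
        · exact absurd hmq (lt_irrefl _)
        · exact absurd hmq (hm q hq).not_gt
    rw [← sum_fiberwise_of_maps_to (s := X) (t := range (r x0 m + 1)) (g := fun x => A x m)
      fun x hx => mem_range.2 (Nat.lt_succ_of_le (hr x hx ▸ h2 x hx m (mem_insert_self _ _)))]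
    refine le_trans (sum_le_sum fun j _ => ?_) (h1 m (r x0 m))
    have h5 := ih (X.filter fun x => A x m = j)
      (fun x hx p hp => h2 x (mem_filter.1 hx).1 p (mem_insert_of_mem hp))
      (fun x hx x' hx' p hp h => h3 x (mem_filter.1 hx).1 x' (mem_filter.1 hx').1 p
        (mem_insert_of_mem hp) fun q hq hpq => by
          rcases mem_insert.1 hq with rfl | hq
          · rw [(mem_filter.1 hx).2, (mem_filter.1 hx').2]
          · exact h q hq hpq)
      (fun Y hY h => h4 Y (hY.trans (filter_subset _ _)) fun x hx x' hx' q hq => by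
        rcases mem_insert.1 hq with rfl | hq
        · rw [(mem_filter.1 (hY hx)).2, (mem_filter.1 (hY hx')).2]
        · exact h x hx x' hx' q hq)
    refine le_trans (le_of_eq ?_) (mul_le_of_le_one_right (h0 _ _ _) h5)
    rw [mul_sum]
    refine sum_congr rfl fun x hx => ?_
    rw [prod_insert hmP, (mem_filter.1 hx).2, hr x (mem_filter.1 hx).1]
    ring

/-- The weights of the letters. -/
noncomputable def wt (t : Prop) (j s : ℕ) : ℝ :=
  if t ∧ j = 0 then 1 / 2 ^ (s - 1) else if t ∧ j = 1 then 0 else 2 ^ (j - 1) / 2 ^ s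

lemma wt_nonneg (t : Prop) (j s : ℕ) : 0 ≤ wt t j s := by
  unfold wt; split_ifs <;> positivity

lemma sum_pred (r : ℕ) : ∑ a ∈ range (r + 1), (2 : ℝ) ^ (a - 1) = 2 ^ r := by
  induction r with
  | zero => simp
  | succ r ih => rw [sum_range_succ, ih, Nat.add_sub_cancel]; ring

lemma wt_sum (t : Prop) (s : ℕ) : ∑ j ∈ range (s + 1), wt t j s ≤ 1 := by
  have h1 : ∑ j ∈ range (s + 1), (2 : ℝ) ^ (j - 1) / 2 ^ s = 1 := by
    rw [← sum_div, sum_pred, div_self (by positivity)]
  by_cases ht : t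
  · rcases s with _ | s
    · simp [wt, ht]
    · rw [sum_range_succ', sum_range_succ'] at h1 ⊢
      refine le_of_eq (Eq.trans ?_ h1)
      simp only [wt, ht, true_and, Nat.add_eq_zero_iff, one_ne_zero, and_false, if_false,
        Nat.add_eq_right, if_true, zero_add, Nat.add_sub_cancel, Nat.sub_self, pow_zero,
        Nat.zero_sub]
      rw [pow_succ]
      field_simp
      ring
  · simp only [wt, ht, false_and, if_false]
    exact h1.le

variable {k : Type} [Field k] [CharP k 2]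

lemma add_one_one (P : k[X]) : P + 1 + 1 = P := by
  rw [add_assoc, CharTwo.add_self_eq_zero, add_zero]

lemma geo_zero (Q : k[X]) : geo Q 0 = 1 := by simp [geo]

lemma geo_one (Q : k[X]) : geo Q 1 = Q + 1 := by simp [geo, sum_range_succ, add_comm]

/-- The prime factors of degree above `y`. -/
noncomputable def big (n : k[X]) (y : ℕ) : Finset k[X] := (pr n).filter fun P => y < P.natDegree

/-- The letter of `x` at `P`. -/
noncomputable def lt0 (L : Finset k[X]) (x P : k[X]) : ℕ :=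
  if P + 1 ∈ L ∧ v P x = 1 then 0 else v P x

/-- The contribution of the twin of `P` that the letters do not show. -/
noncomputable def eps (L : Finset k[X]) (x P : k[X]) : ℕ :=
  if P + 1 ∈ L ∧ v (P + 1) x = 1 then 1 else 0

/-- The contribution of `Q` to `P` shown by the letter at `Q`. -/
noncomputable def phi (L : Finset k[X]) (x P Q : k[X]) : ℕ := v P (geo Q (lt0 L x Q))

lemma val_big {x n : k[X]} (hn : n ≠ 0) (hx : x.Monic) (h : x * sig x = n) (y : ℕ) {P : k[X]}
    (hP : P ∈ big n y) : v P n = v P x + eps (big n y) x P + ∑ Q ∈ big n y, phi (big n y) x P Q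
      + ∑ Q ∈ (pr n).filter fun Q => ¬ y < Q.natDegree, v P (geo Q (v Q x)) := by
  have h1 : ∀ Q ∈ big n y, v P (geo Q (v Q x))
      = (if Q = P + 1 then eps (big n y) x P else 0) + phi (big n y) x P Q := by
    intro Q hQ
    unfold phi lt0 eps
    by_cases h2 : Q + 1 ∈ big n y ∧ v Q x = 1
    · have h3 := (mem_pr hn).1 (mem_filter.1 h2.1).1
      rw [if_pos h2, h2.2, geo_zero, geo_one, v_one, v_irred h3.2.1 h3.1, add_zero]
      by_cases h4 : Q = P + 1
      · subst h4
        rw [if_pos (add_one_one P).symm, if_pos rfl, if_pos ⟨hQ, h2.2⟩]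
      · rw [if_neg h4, if_neg fun h5 => h4 (by rw [h5, add_one_one])]
    · rw [if_neg h2]
      by_cases h4 : Q = P + 1
      · subst h4
        rw [if_pos rfl, if_neg fun h5 => h2 ⟨by rwa [add_one_one], h5.2⟩, zero_add]
      · rw [if_neg h4, zero_add]
  rw [val_eq hn hx h P, ← sum_filter_add_sum_filter_not (pr n) fun Q => y < Q.natDegree]
  change _ + (∑ Q ∈ big n y, _ + _) = _
  rw [sum_congr rfl h1, sum_add_distrib, sum_ite_eq']
  have h2 : (if P + 1 ∈ big n y then eps (big n y) x P else 0) = eps (big n y) x P := by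
    unfold eps; split_ifs with h3 h4 h4 <;> first | rfl | exact absurd h4.1 h3
  rw [h2]
  ring

variable {κ : Type} [LinearOrder κ]

/-- Contributions from primes that are read later. -/
noncomputable def late (L : Finset k[X]) (ρ : k[X] → κ) (x P : k[X]) : ℕ :=
  ∑ Q ∈ L with ρ Q < ρ P, phi L x P Q

/-- The twin pairs with exponents 0 and 1. -/
noncomputable def zs (L : Finset k[X]) (ρ : k[X] → κ) (x : k[X]) : Finset k[X] :=
  L.filter fun P => P + 1 ∈ L ∧ v P x + v (P + 1) x = 1 ∧ ρ (P + 1) < ρ P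

/-- The cost of the letter itself. -/
noncomputable def own (L : Finset k[X]) (x P : k[X]) : ℕ :=
  if P + 1 ∈ L then (if v P x ≤ 1 then v P x + eps L x P - 1 else 1 + eps L x P)
  else if v P x = 0 then 0 else 1

/-- The length of the code word of `x`. -/
noncomputable def cost (L : Finset k[X]) (ρ : k[X] → κ) (x : k[X]) : ℕ :=
  (zs L ρ x).card + ∑ P ∈ L, (own L x P + late L ρ x P)

lemma wt_ge (L : Finset k[X]) (ρ : k[X] → κ) (x P : k[X]) :
    (1 : ℝ) / 2 ^ (own L x P + late L ρ x P)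
      ≤ wt (P + 1 ∈ L) (lt0 L x P) (v P x + eps L x P + late L ρ x P) := by
  have key : ∀ a b c : ℕ, b ≤ c + a → (1 : ℝ) / 2 ^ c ≤ 2 ^ a / 2 ^ b := fun a b c h => by
    rw [div_le_div_iff₀ (by positivity) (by positivity), one_mul, ← pow_add]
    exact pow_le_pow_right₀ one_le_two (by omega)
  unfold wt own lt0
  by_cases h1 : P + 1 ∈ L
  · simp only [h1, true_and, if_true]
    by_cases h2 : v P x ≤ 1
    · have h3 : (if v P x = 1 then 0 else v P x) = 0 := by split_ifs <;> omega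
      rw [h3, if_pos h2, if_pos rfl]
      simpa using key 0 _ _ (by omega)
    · rw [if_neg h2, if_neg (show ¬ v P x = 1 by omega), if_neg (show ¬ v P x = 0 by omega),
        if_neg (show ¬ v P x = 1 by omega)]
      exact key _ _ _ (by omega)
  · have h3 : eps L x P = 0 := if_neg fun h => h1 h.1
    simp only [h1, false_and, if_false, h3]
    exact key _ _ _ (by split_ifs <;> omega)

lemma fibre_le {n : k[X]} (hn : n ≠ 0) (y : ℕ) (ρ : k[X] → κ) (hρ : Function.Injective ρ)
    (Y : Finset k[X]) (hY : ∀ x ∈ Y, x.Monic ∧ x * sig x = n)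
    (hs : ∀ x ∈ Y, ∀ x' ∈ Y, ∀ Q ∈ pr n, ¬ y < Q.natDegree → v Q x = v Q x')
    (hA : ∀ x ∈ Y, ∀ x' ∈ Y, ∀ Q ∈ big n y, lt0 (big n y) x Q = lt0 (big n y) x' Q) :
    ∑ x ∈ Y, (1 : ℝ) / 2 ^ (zs (big n y) ρ x).card ≤ 1 := by
  rcases Y.eq_empty_or_nonempty with rfl | ⟨x0, hx0⟩
  · simp
  set L := big n y with hL
  have hE : ∀ x ∈ Y, ∀ x' ∈ Y, ∀ P ∈ L, v P x + eps L x P = v P x' + eps L x' P := by
    intro x hx x' hx' P hP
    have h1 := val_big hn (hY x hx).1 (hY x hx).2 y hP
    have h2 := val_big hn (hY x' hx').1 (hY x' hx').2 y hP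
    have h3 : ∑ Q ∈ L, phi L x P Q = ∑ Q ∈ L, phi L x' P Q :=
      sum_congr rfl fun Q hQ => by unfold phi; rw [hA x hx x' hx' Q hQ]
    have h4 : ∑ Q ∈ (pr n).filter fun Q => ¬ y < Q.natDegree, v P (geo Q (v Q x))
        = ∑ Q ∈ (pr n).filter fun Q => ¬ y < Q.natDegree, v P (geo Q (v Q x')) :=
      sum_congr rfl fun Q hQ => by rw [hs x hx x' hx' Q (mem_filter.1 hQ).1 (mem_filter.1 hQ).2]
    rw [← hL] at h1 h2
    omega
  have hT : ∀ x ∈ Y, ∀ x' ∈ Y, ∀ P ∈ L, P + 1 ∈ L →
      (v P x + v (P + 1) x = 1 ↔ v P x' + v (P + 1) x' = 1) ∧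
      (v P x + v (P + 1) x ≠ 1 → v P x = v P x') := by
    intro x hx x' hx' P hP hP1
    have h1 := hE x hx x' hx' P hP
    have h2 := hA x hx x' hx' P hP
    have h3 := hA x hx x' hx' (P + 1) hP1
    unfold eps at h1
    unfold lt0 at h2 h3
    simp only [hP1, add_one_one, hP, true_and] at h1 h2 h3
    split_ifs at h1 h2 h3 <;> omega
  have hZ : ∀ x ∈ Y, zs L ρ x = zs L ρ x0 := fun x hx => filter_congr fun P hP => by
    constructor
    · rintro ⟨h1, h2, h3⟩
      exact ⟨h1, (hT x hx x0 hx0 P hP h1).1.1 h2, h3⟩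
    · rintro ⟨h1, h2, h3⟩
      exact ⟨h1, (hT x hx x0 hx0 P hP h1).1.2 h2, h3⟩
  have hc : Y.card ≤ 2 ^ (zs L ρ x0).card := by
    rw [← card_powerset]
    refine card_le_card_of_injOn (fun x => (zs L ρ x0).filter fun P => v P x = 1)
      (fun x _ => mem_coe.2 (mem_powerset.2 (filter_subset _ _))) fun x hx x' hx' h => ?_
    have h1 : ∀ P ∈ zs L ρ x0, (v P x = 1 ↔ v P x' = 1) := fun P hP => by
      have h2 := congrArg (P ∈ ·) h
      simpa only [mem_filter, hP, true_and, eq_iff_iff] using h2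
    rw [sol_prod hn (hY x hx).1 (hY x hx).2, sol_prod hn (hY x' hx').1 (hY x' hx').2]
    refine prod_congr rfl fun P hP => ?_
    congr 1
    by_cases h2 : y < P.natDegree
    swap
    · exact hs x hx x' hx' P hP h2
    have h3 : P ∈ L := mem_filter.2 ⟨hP, h2⟩
    by_cases h4 : P + 1 ∈ L
    swap
    · have h5 := hA x hx x' hx' P h3
      unfold lt0 at h5
      simpa only [h4, false_and, if_false] using h5
    by_cases h5 : v P x + v (P + 1) x = 1
    swap
    · exact (hT x hx x' hx' P h3 h4).2 h5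
    have h6 := (hT x hx x' hx' P h3 h4).1.1 h5
    rcases lt_trichotomy (ρ (P + 1)) (ρ P) with h7 | h7 | h7
    · have h8 := h1 P (hZ x hx ▸ mem_filter.2 ⟨h3, h4, h5, h7⟩)
      omega
    · exact absurd (hρ h7) (by simp)
    · have h8 := h1 (P + 1) (hZ x hx ▸ mem_filter.2 ⟨h4, by rwa [add_one_one],
        by rw [add_one_one]; omega, by rwa [add_one_one]⟩)
      omega
  rw [sum_congr rfl fun x hx => by rw [hZ x hx], sum_const, nsmul_eq_mul, mul_one_div,
    div_le_one (by positivity)]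
  exact_mod_cast hc

lemma card_cost_le {n : k[X]} (hn : n ≠ 0) (y K : ℕ) (ρ : k[X] → κ) (hρ : Function.Injective ρ)
    (X : Finset k[X]) (hX : ∀ x ∈ X, x.Monic ∧ x * sig x = n)
    (hs : ∀ x ∈ X, ∀ x' ∈ X, ∀ Q ∈ pr n, ¬ y < Q.natDegree → v Q x = v Q x')
    (hK : ∀ x ∈ X, cost (big n y) ρ x ≤ K) : X.card ≤ 2 ^ K := by
  set L := big n y with hL
  have h1 := kraft ρ (lt0 L) (fun x P => v P x + eps L x P + late L ρ x P)
    (fun P => wt (P + 1 ∈ L)) (fun x => (1 : ℝ) / 2 ^ (zs L ρ x).card)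
    (fun _ => wt_nonneg _) (fun _ => wt_sum _) L X
    (fun x _ P _ => by unfold lt0; split_ifs <;> omega)
    (fun x hx x' hx' P hP h => by
      have h1 := val_big hn (hX x hx).1 (hX x hx).2 y hP
      have h2 := val_big hn (hX x' hx').1 (hX x' hx').2 y hP
      rw [← hL, ← sum_filter_add_sum_filter_not L fun Q => ρ Q < ρ P] at h1 h2
      have h3 : ∑ Q ∈ L with ¬ ρ Q < ρ P, phi L x P Q = ∑ Q ∈ L with ¬ ρ Q < ρ P, phi L x' P Q := by
        refine sum_congr rfl fun Q hQ => ?_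
        obtain ⟨h4, h5⟩ := mem_filter.1 hQ
        unfold phi
        rcases (not_lt.1 h5).eq_or_lt with h6 | h6
        · have h7 := (mem_pr hn).1 (mem_filter.1 hP).1
          rw [← hρ h6, v_geo_self h7.2.1 h7.1, v_geo_self h7.2.1 h7.1]
        · rw [h Q h4 h6]
      have h4 : ∑ Q ∈ (pr n).filter fun Q => ¬ y < Q.natDegree, v P (geo Q (v Q x))
          = ∑ Q ∈ (pr n).filter fun Q => ¬ y < Q.natDegree, v P (geo Q (v Q x')) :=
        sum_congr rfl fun Q hQ => by
          rw [hs x hx x' hx' Q (mem_filter.1 hQ).1 (mem_filter.1 hQ).2]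
      unfold late
      omega)
    (fun Y hY h => fibre_le hn y ρ hρ Y (fun x hx => hX x (hY hx))
      (fun x hx x' hx' => hs x (hY hx) x' (hY hx')) h)
  have h2 : ∀ x ∈ X, (1 : ℝ) / 2 ^ K ≤ 1 / 2 ^ (zs L ρ x).card *
      ∏ P ∈ L, wt (P + 1 ∈ L) (lt0 L x P) (v P x + eps L x P + late L ρ x P) := by
    intro x hx
    refine le_trans ?_ (mul_le_mul_of_nonneg_left
      (prod_le_prod (fun _ _ => by positivity) fun P _ => wt_ge L ρ x P) (by positivity))
    rw [prod_div_distrib, prod_const_one, prod_pow_eq_pow_sum, div_mul_div_comm, one_mul,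
      ← pow_add]
    exact one_div_le_one_div_of_le (by positivity) (pow_le_pow_right₀ one_le_two (hK x hx))
  have h3 := (sum_le_sum h2).trans h1
  rw [sum_const, nsmul_eq_mul, mul_one_div, div_le_one (by positivity)] at h3
  exact_mod_cast h3

end Pool.Agent.Lib.MP_253cbc_nt.FF
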