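import Pool.Agent.Lib.MP_253cbc_nt.FF.Upper
import Pool.Agent.Lib.MP_9227d9_nt.TwOne

/-!
Many solutions of `x * sig x = n` in `k[T]` from twin primes `P, P + 1`, characteristic two.
-/

open Finset Polynomial UniqueFactorizationMonoid Filter

open scoped Classical

namespace Pool.Agent.Lib.MP_253cbc_nt.FF

variable {k : Type} [Field k] [CharP k 2]

lemma many (R : Finset k[X]) (hR : ∀ P ∈ R, P.Monic ∧ Irreducible P ∧ Irreducible (P + 1))
    (hR' : ∀ P ∈ R, P + 1 ∉ R) :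
    2 ^ R.card ≤ Set.ncard {x : k[X] | x.Monic ∧ x * sig x = ∏ P ∈ R, P * (P + 1)} := by
  have hm : ∀ P ∈ R, (P + 1).Monic := fun P hP =>
    (hR P hP).1.add_of_left (by simpa using degree_pos_of_irreducible (hR P hP).2.1)
  have hn : (∏ P ∈ R, P * (P + 1)) ≠ 0 :=
    (monic_prod_of_monic _ _ fun P hP => (hR P hP).1.mul (hm P hP)).ne_zero
  set f : Finset k[X] → k[X] → k[X] := fun U P => if P ∈ U then P + 1 else P with hf
  have h1 : ∀ U, ∀ P ∈ R, (f U P).Monic ∧ Irreducible (f U P) := fun U P hP => by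
    simp only [hf]; split_ifs
    · exact ⟨hm P hP, (hR P hP).2.2⟩
    · exact ⟨(hR P hP).1, (hR P hP).2.1⟩
  have h2 : ∀ U U', ∀ P ∈ R, ∀ Q ∈ R, f U P = f U' Q → P = Q ∧ (P ∈ U ↔ Q ∈ U') := by
    intro U U' P hP Q hQ h
    simp only [hf] at h
    split_ifs at h with h3 h4 h4
    · exact ⟨add_right_cancel h, iff_of_true h3 h4⟩
    · exact absurd (h ▸ hQ) (hR' P hP)
    · exact absurd (h ▸ hP) (hR' Q hQ)
    · exact ⟨h, iff_of_false h3 h4⟩
  have h3 : ∀ U, (∏ P ∈ R, f U P) * sig (∏ P ∈ R, f U P) = ∏ P ∈ R, P * (P + 1) := fun U => by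
    have hinj : Set.InjOn (f U) R := fun P hP Q hQ h => (h2 U U P hP Q hQ h).1
    have h4 := sig_prod (fun _ => 1) (R.image (f U)) fun P hP => by
      obtain ⟨Q, hQ, rfl⟩ := mem_image.1 hP
      exact h1 U Q hQ
    rw [prod_image hinj, prod_image hinj] at h4
    simp only [pow_one, geo_one] at h4
    rw [h4, ← prod_mul_distrib]
    refine prod_congr rfl fun P _ => ?_
    simp only [hf]
    split_ifs
    · rw [add_one_one, mul_comm]
    · rfl
  rw [← card_powerset, Set.ncard_eq_toFinset_card _ (sol_finite hn)]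
  refine card_le_card_of_injOn (fun U => ∏ P ∈ R, f U P) (fun U _ => ?_) ?_
  · simp only [Set.Finite.coe_toFinset, Set.mem_ofPred_eq]
    exact ⟨monic_prod_of_monic _ _ fun P hP => (h1 U P hP).1, h3 U⟩
  · have key : ∀ U U' : Finset k[X], U ⊆ R → ∏ P ∈ R, f U P = ∏ P ∈ R, f U' P → U ⊆ U' := by
      intro U U' hU h P hP
      have h4 : f U P ∣ ∏ P ∈ R, f U' P := h ▸ dvd_prod_of_mem _ (hU hP)
      obtain ⟨Q, hQ, h5⟩ := (Prime.dvd_finsetProd_iff (h1 U P (hU hP)).2.prime _).1 h4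
      obtain ⟨rfl, h6⟩ := h2 U U' P (hU hP) Q hQ
        (eq_of_dvd (h1 U P (hU hP)).1 (h1 U P (hU hP)).2 (h1 U' Q hQ).1 (h1 U' Q hQ).2 h5)
      exact h6.1 hP
    intro U hU U' hU' h
    exact Subset.antisymm (key U U' (mem_powerset.1 hU) h) (key U' U (mem_powerset.1 hU') h.symm)

variable [Fintype k]

lemma half (d : ℕ) (hd : 0 < d) : ∃ R : Finset k[X],
    (∀ P ∈ R, P.natDegree = d ∧ P.Monic ∧ Irreducible P ∧ Irreducible (P + 1)) ∧
    (∀ P ∈ R, P + 1 ∉ R) ∧
    Set.ncard {P : k[X] | P.Monic ∧ P.natDegree = d ∧ Irreducible P ∧ Irreducible (P + 1)}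
      ≤ 2 * R.card := by
  have : Countable k[X] := Cardinal.mk_le_aleph0_iff.1
    (Polynomial.cardinalMk_le_max.trans (max_le Cardinal.mk_le_aleph0 le_rfl))
  obtain ⟨e, he⟩ := exists_injective_nat k[X]
  set S := {P : k[X] | P.Monic ∧ P.natDegree = d ∧ Irreducible P ∧ Irreducible (P + 1)} with hS
  by_cases hfin : S.Finite
  swap
  · exact ⟨∅, by simp, by simp, by rw [Set.Infinite.ncard hfin]; exact Nat.zero_le _⟩
  refine ⟨hfin.toFinset.filter fun P => e P < e (P + 1), fun P hP => ?_, fun P hP h => ?_, ?_⟩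
  · have h1 : P ∈ S := hfin.mem_toFinset.1 (mem_filter.1 hP).1
    exact ⟨h1.2.1, h1.1, h1.2.2⟩
  · have h1 := (mem_filter.1 h).2
    rw [add_one_one] at h1
    exact lt_asymm h1 (mem_filter.1 hP).2
  · rw [Set.ncard_eq_toFinset_card _ hfin, two_mul,
      ← card_filter_add_card_filter_not (s := hfin.toFinset) fun P => e P < e (P + 1)]
    refine Nat.add_le_add_left (card_le_card_of_injOn (· + 1) (fun P hP => ?_)
      fun _ _ _ _ h => add_right_cancel h) _
    have h1 := mem_filter.1 (mem_coe.1 hP)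
    have h2 : P ∈ S := hfin.mem_toFinset.1 h1.1
    refine mem_coe.2 (mem_filter.2 ⟨hfin.mem_toFinset.2 ⟨?_, ?_, h2.2.2.2, ?_⟩, ?_⟩)
    · exact h2.1.add_of_left (by simpa using degree_pos_of_irreducible h2.2.2.1)
    · rw [deg_add_one (h2.2.1 ▸ hd), h2.2.1]
    · rw [add_one_one]; exact h2.2.2.1
    · rw [add_one_one]
      exact lt_of_le_of_ne (not_lt.1 h1.2) fun h => by simpa using he h

theorem lower (hk : 2 < Fintype.card k) (c : ℝ) (hc : c < Real.log 2 / 2) (D : ℕ) :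
    ∃ n : k[X], n.Monic ∧ D ≤ n.natDegree ∧
      ((Fintype.card k : ℝ) ^ n.natDegree) ^
        (c / Real.log (Real.log ((Fintype.card k : ℝ) ^ n.natDegree)))
        ≤ (Set.ncard {x : k[X] | x.Monic ∧ x * sig x = n} : ℝ) := by
  obtain ⟨S, -, hS, hT⟩ := Pool.Agent.Lib.MP_9227d9_nt.Mob.twOne k 1 one_ne_zero
  have hS0 : 0 < S := hS fun h => absurd h hk.ne'
  have hT0 := hT ∅
  simp only [notMem_empty, false_imp_iff, implies_true, and_true] at hT0
  have hl2 : 0 < Real.log 2 := Real.log_pos one_lt_two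
  obtain ⟨q, hq⟩ : ∃ q : ℝ, q = Fintype.card k := ⟨_, rfl⟩
  have hq2 : 2 ≤ q := by rw [hq]; exact_mod_cast hk.le
  have hlq : Real.log 2 ≤ Real.log q := Real.log_le_log two_pos hq2
  have hlq0 : 0 < Real.log q := by linarith
  rw [← hq] at hT0 ⊢
  obtain ⟨θ, hθ0, hθ1, hθ⟩ : ∃ θ : ℝ, 0 < θ ∧ θ < 1 ∧ c ≤ θ * (Real.log 2 / 2) := by
    refine ⟨max (1 / 2) (c / (Real.log 2 / 2)), lt_max_of_lt_left one_half_pos,
      max_lt one_half_lt_one ((div_lt_one (by positivity)).2 hc), ?_⟩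
    rw [← div_le_iff₀ (by positivity)]
    exact le_max_right _ _
  have hr : 1 < q ^ (1 - θ) := Real.one_lt_rpow (by linarith) (by linarith)
  have hr' : 1 < q ^ θ := Real.one_lt_rpow (by linarith) hθ0
  have e1 := hT0.eventually (lt_mem_nhds (half_lt_self hS0))
  have e2 := (tendsto_pow_const_div_const_pow_of_one_lt 2 hr).eventually
    (gt_mem_nhds (show 0 < S / 4 by positivity))
  obtain ⟨d, h1, h2, h3⟩ := (e1.and (e2.and (eventually_ge_atTop (D + 1)))).exists
  obtain ⟨R, hR1, hR2, hR3⟩ := half (k := k) d (by omega)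
  have hd1 : (1 : ℝ) ≤ d := by exact_mod_cast (by omega : 1 ≤ d)
  have hM : (q ^ θ) ^ d ≤ R.card := by
    have h4 : q ^ d = (q ^ θ) ^ d * (q ^ (1 - θ)) ^ d := by
      rw [← mul_pow, ← Real.rpow_add (by linarith), add_sub_cancel, Real.rpow_one]
    rw [lt_div_iff₀ (by positivity), h4] at h1
    rw [div_lt_iff₀ (by positivity)] at h2
    have h5 : (Set.ncard {P : k[X] | P.Monic ∧ P.natDegree = d ∧ Irreducible P ∧
      Irreducible (P + 1)} : ℝ) ≤ 2 * R.card := by exact_mod_cast hR3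
    have h6 := mul_le_mul_of_nonneg_left h5 (sq_nonneg (d : ℝ))
    have h7 := mul_le_mul_of_nonneg_left h2.le (show 0 ≤ (q ^ θ) ^ d by positivity)
    refine le_of_mul_le_mul_left ?_ (show 0 < (d : ℝ) ^ 2 by positivity)
    linarith
  have hM1 : 1 < (q ^ θ) ^ d := one_lt_pow₀ hr' (by omega)
  have hM0 : 0 < R.card := by exact_mod_cast (by linarith : (0 : ℝ) < R.card)
  have hmon : ∀ P ∈ R, (P * (P + 1)).Monic ∧ (P * (P + 1)).natDegree = 2 * d := fun P hP => by
    have h4 := hR1 P hP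
    have h5 : (P + 1).Monic :=
      h4.2.1.add_of_left (by simpa using degree_pos_of_irreducible h4.2.2.1)
    exact ⟨h4.2.1.mul h5, by
      rw [h4.2.1.natDegree_mul h5, deg_add_one (by omega), h4.1, two_mul]⟩
  have hdeg : (∏ P ∈ R, P * (P + 1)).natDegree = R.card * (2 * d) := by
    rw [natDegree_prod_of_monic _ _ fun P hP => (hmon P hP).1,
      sum_congr rfl fun P hP => (hmon P hP).2, sum_const, smul_eq_mul]
  refine ⟨∏ P ∈ R, P * (P + 1), monic_prod_of_monic _ _ fun P hP => (hmon P hP).1, ?_, ?_⟩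
  · rw [hdeg]; nlinarith
  refine le_trans ?_ (Nat.cast_le.2 (many R (fun P hP => (hR1 P hP).2) hR2))
  rw [hdeg, Real.rpow_def_of_pos (by positivity), Real.log_pow,
    ← Real.le_log_iff_exp_le (by positivity)]
  push_cast
  rw [Real.log_pow]
  have h4 : (R.card : ℝ) ≤ R.card * (2 * d) * Real.log q := by
    have := Real.log_two_gt_d9
    rw [mul_assoc]
    exact le_mul_of_one_le_right (by positivity) (by nlinarith)
  have h5 : d * (θ * Real.log q) ≤ Real.log (R.card * (2 * d) * Real.log q) := by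
    rw [← Real.log_rpow (by linarith), ← Real.log_pow]
    exact Real.log_le_log (by positivity) (hM.trans h4)
  have h6 : 0 < d * (θ * Real.log q) := by positivity
  rw [← mul_div_assoc, div_le_iff₀ (by linarith)]
  have h7 := mul_le_mul_of_nonneg_left h5 (show 0 ≤ (R.card : ℝ) * Real.log 2 by positivity)
  have h8 := mul_le_mul_of_nonneg_left hθ
    (show 0 ≤ (R.card : ℝ) * (2 * d) * Real.log q by positivity)
  linarith

end Pool.Agent.Lib.MP_253cbc_nt.FF
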