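import Pool.Agent.Lib.MP_253cbc_nt.FF.Code

/-!
The upper bound for the number of solutions of `x * sig x = n` in `k[T]`, characteristic two.
-/

open Finset Polynomial UniqueFactorizationMonoid Filter

open scoped Classical

namespace Pool.Agent.Lib.MP_253cbc_nt.FF

variable {k : Type} [Field k] [CharP k 2]

/-- An order of the polynomials by degree, ties broken by `e`. -/
noncomputable def rk (e : k[X] → ℤ) (P : k[X]) : ℕ ×ₗ ℤ := toLex (P.natDegree, e P)

omit [CharP k 2] in
lemma rk_lt (e : k[X] → ℤ) (P Q : k[X]) : rk e P < rk e Q ↔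
    P.natDegree < Q.natDegree ∨ P.natDegree = Q.natDegree ∧ e P < e Q := by
  simp [rk, Prod.Lex.toLex_lt_toLex]

omit [CharP k 2] in
lemma rk_inj {e : k[X] → ℤ} (he : Function.Injective e) : Function.Injective (rk e) :=
  fun _ _ h => he (congrArg (fun z => (ofLex z).2) h)

omit [CharP k 2] in
lemma deg_add_one {P : k[X]} (hP : 0 < P.natDegree) : (P + 1).natDegree = P.natDegree :=
  natDegree_add_eq_left_of_natDegree_lt (by simpa using hP)

lemma out_le {n : k[X]} (hn : n ≠ 0) (y : ℕ) (e : k[X] → ℤ) (x : k[X]) {Q : k[X]}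
    (hQ : Q ∈ big n y) :
    ∑ P ∈ big n y with rk e Q < rk e P, phi (big n y) x P Q
      + ∑ P ∈ big n y with rk (fun P => -e P) Q < rk (fun P => -e P) P, phi (big n y) x P Q
      ≤ 2 * (lt0 (big n y) x Q - 1) := by
  set L := big n y with hL
  have hq := (mem_pr hn).1 (mem_filter.1 hQ).1
  have hd := hq.1.natDegree_pos
  have hg := geo_spec hq.2.1 hd (lt0 L x Q)
  set U := ∑ P ∈ L, if Q.natDegree < P.natDegree then phi L x P Q else 0 with hU
  set H := ∑ P ∈ L, if Q.natDegree = P.natDegree then phi L x P Q else 0 with hH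
  have h1 : ∑ P ∈ L with rk e Q < rk e P, phi L x P Q
      + ∑ P ∈ L with rk (fun P => -e P) Q < rk (fun P => -e P) P, phi L x P Q ≤ 2 * U + H := by
    rw [sum_filter, sum_filter, hU, hH, mul_sum, ← sum_add_distrib, ← sum_add_distrib]
    refine sum_le_sum fun P _ => ?_
    simp only [rk_lt]
    split_ifs <;> omega
  have h2 : (Q.natDegree + 1) * U + Q.natDegree * H ≤ lt0 L x Q * Q.natDegree := by
    refine le_trans ?_ ((sum_v_le hg.1 L).trans hg.2.le)
    rw [hU, hH, mul_sum, mul_sum, ← sum_add_distrib]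
    refine sum_le_sum fun P _ => ?_
    change _ ≤ phi L x P Q * _
    split_ifs with h3 h4 h4
    · omega
    · rw [mul_zero, add_zero, mul_comm]; exact Nat.mul_le_mul_left _ h3
    · rw [mul_zero, zero_add, mul_comm, h4]
    · simp
  have h3 : lt0 L x Q = 1 → H = 0 := by
    intro h4
    refine sum_eq_zero fun P hP => ?_
    split_ifs with h5
    swap
    · rfl
    by_contra h6
    unfold phi at h6
    rw [h4, geo_one] at h6
    have h7 : (Q + 1).Monic := by simpa only [h4, geo_one] using hg.1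
    have h8 := (v_ne_zero h7.ne_zero).1 h6
    have h9 : Q + 1 = P := eq_of_monic_of_dvd_of_natDegree_le h8.2.1 h7 h8.2.2
      (by rw [deg_add_one hd, h5])
    unfold lt0 at h4
    split_ifs at h4 with h10
    exact h10 ⟨h9 ▸ hP, h4⟩
  refine h1.trans ?_
  generalize lt0 L x Q = b at h2 h3
  generalize Q.natDegree = d at h2 hd
  have h4 : U + H ≤ b := by nlinarith
  have h5 : 0 < U → U + H < b := fun h => by nlinarith
  omega

lemma cost_add_le {n : k[X]} (hn : n ≠ 0) (y : ℕ) (e : k[X] → ℤ) (x : k[X]) :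
    cost (big n y) (rk e) x + cost (big n y) (rk fun P => -e P) x
      ≤ 2 * ∑ P ∈ big n y, v P x := by
  set L := big n y with hL
  have hd : ∀ P ∈ L, 0 < P.natDegree := fun P hP =>
    ((mem_pr hn).1 (mem_filter.1 hP).1).1.natDegree_pos
  have h1 : ∀ f : k[X] → ℤ, ∑ P ∈ L, late L (rk f) x P
      = ∑ Q ∈ L, ∑ P ∈ L with rk f Q < rk f P, phi L x P Q := fun f => by
    unfold late
    exact sum_comm' (by simp only [mem_filter]; tauto)
  have h2 : ∑ P ∈ L, late L (rk e) x P + ∑ P ∈ L, late L (rk fun P => -e P) x P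
      ≤ ∑ Q ∈ L, 2 * (lt0 L x Q - 1) := by
    rw [h1, h1, ← sum_add_distrib]
    exact sum_le_sum fun Q hQ => out_le hn y e x hQ
  have h3 : (zs L (rk e) x).card + (zs L (rk fun P => -e P) x).card
      ≤ ∑ P ∈ L, if P + 1 ∈ L ∧ v P x + v (P + 1) x = 1 then 1 else 0 := by
    unfold zs
    rw [card_filter, card_filter, ← sum_add_distrib]
    refine sum_le_sum fun P hP => ?_
    have h4 := deg_add_one (hd P hP)
    by_cases h5 : P + 1 ∈ L
    · simp only [rk_lt, h5, true_and]
      split_ifs <;> omega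
    · simp [h5]
  set g : k[X] → ℕ := fun P => 2 * own L x P + 2 * (lt0 L x P - 1)
    + if P + 1 ∈ L ∧ v P x + v (P + 1) x = 1 then 1 else 0 with hg
  set τ : k[X] → k[X] := fun P => if P + 1 ∈ L then P + 1 else P with hτ
  have h4 : ∀ f : k[X] → ℕ, ∑ P ∈ L, f (τ P) = ∑ P ∈ L, f P := fun f => by
    have h5 : ∀ P ∈ L, τ P ∈ L := fun P hP => by
      simp only [hτ]; split_ifs with h <;> assumption
    have h6 : ∀ P ∈ L, τ (τ P) = P := fun P hP => by
      by_cases h : P + 1 ∈ L
      · simp only [hτ, h, if_true, add_one_one, hP]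
      · simp only [hτ, h, if_false]
    exact sum_nbij' τ τ h5 h5 h6 h6 fun _ _ => rfl
  have h5 : ∀ P ∈ L, g P + g (τ P) ≤ 2 * v P x + 2 * v (τ P) x := by
    intro P hP
    by_cases h : P + 1 ∈ L
    · simp only [hg, hτ, own, lt0, eps, h, if_true, add_one_one, hP, true_and]
      split_ifs <;> omega
    · simp only [hg, hτ, own, lt0, eps, h, if_false, false_and]
      split_ifs <;> omega
  have h6 : ∑ P ∈ L, g P + ∑ P ∈ L, g (τ P) ≤ ∑ P ∈ L, 2 * v P x + ∑ P ∈ L, 2 * v (τ P) x := by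
    rw [← sum_add_distrib, ← sum_add_distrib]
    exact sum_le_sum h5
  rw [h4 g, h4 fun P => 2 * v P x, ← mul_sum] at h6
  have h7 : ∑ P ∈ L, g P = 2 * ∑ P ∈ L, own L x P + ∑ Q ∈ L, 2 * (lt0 L x Q - 1)
      + ∑ P ∈ L, if P + 1 ∈ L ∧ v P x + v (P + 1) x = 1 then 1 else 0 := by
    simp only [hg, sum_add_distrib, mul_sum]
  unfold cost
  rw [sum_add_distrib, sum_add_distrib]
  omega

variable [Fintype k]

lemma card_fibre_le {n : k[X]} (hn : n ≠ 0) (y : ℕ)
    (X : Finset k[X]) (hX : ∀ x ∈ X, x.Monic ∧ x * sig x = n)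
    (hs : ∀ x ∈ X, ∀ x' ∈ X, ∀ Q ∈ pr n, ¬ y < Q.natDegree → v Q x = v Q x') :
    X.card ≤ 2 * 2 ^ (n.natDegree / (2 * (y + 1))) := by
  have : Countable k[X] := Cardinal.mk_le_aleph0_iff.1
    (Polynomial.cardinalMk_le_max.trans (max_le Cardinal.mk_le_aleph0 le_rfl))
  obtain ⟨e0, he0⟩ := exists_injective_nat k[X]
  set e : k[X] → ℤ := fun P => e0 P with he
  have h1 : Function.Injective e := fun _ _ h => he0 (by simpa [he] using h)
  have h2 : Function.Injective fun P => -e P := fun _ _ h => h1 (neg_injective h)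
  set K := n.natDegree / (2 * (y + 1)) with hK
  have h3 : ∀ x ∈ X, ∑ P ∈ big n y, v P x ≤ K := by
    intro x hx
    rw [hK, Nat.le_div_iff_mul_le (by positivity), sol_deg hn (hX x hx).1 (hX x hx).2,
      mul_left_comm, sum_mul]
    refine Nat.mul_le_mul_left _ (le_trans (sum_le_sum fun P hP => ?_) (sum_v_le (hX x hx).1 _))
    exact Nat.mul_le_mul_left _ (mem_filter.1 hP).2
  have h4 := fun (f : k[X] → ℤ) (hf : Function.Injective f) =>
    card_cost_le hn y K (rk f) (rk_inj hf) (X.filter fun x => cost (big n y) (rk f) x ≤ K)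
      (fun x hx => hX x (mem_filter.1 hx).1)
      (fun x hx x' hx' => hs x (mem_filter.1 hx).1 x' (mem_filter.1 hx').1)
      fun x hx => (mem_filter.1 hx).2
  have h5 : X ⊆ (X.filter fun x => cost (big n y) (rk e) x ≤ K)
      ∪ X.filter fun x => cost (big n y) (rk fun P => -e P) x ≤ K := by
    intro x hx
    have h6 := cost_add_le hn y e x
    have h7 := h3 x hx
    simp only [mem_union, mem_filter, hx, true_and]
    omega
  have h6 := (card_le_card h5).trans (card_union_le _ _)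
  have h7 := h4 e h1
  have h8 := h4 _ h2
  omega

omit [CharP k 2] in
lemma card_small_le (y : ℕ) (S : Finset k[X]) (hS : ∀ P ∈ S, P.natDegree ≤ y) :
    S.card ≤ Fintype.card k ^ (y + 1) := by
  have h1 := card_le_card_of_injOn (s := S) (t := univ)
    (fun (P : k[X]) (i : Fin (y + 1)) => P.coeff i) (fun _ _ => by simp) fun P hP Q hQ h => by
      ext i
      by_cases hi : i < y + 1
      · exact congrFun h ⟨i, hi⟩
      · rw [coeff_eq_zero_of_natDegree_lt (by have := hS P hP; omega),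
          coeff_eq_zero_of_natDegree_lt (by have := hS Q hQ; omega)]
  simpa using h1

theorem card_le {n : k[X]} (hn : n ≠ 0) (y : ℕ)
    (X : Finset k[X]) (hX : ∀ x ∈ X, x.Monic ∧ x * sig x = n) :
    X.card ≤ 2 * 2 ^ (n.natDegree / (2 * (y + 1)))
      * (n.natDegree + 1) ^ Fintype.card k ^ (y + 1) := by
  set S := (pr n).filter fun Q => ¬ y < Q.natDegree with hS
  have h1 := card_le_mul_card_image (f := fun x => fun Q : S => v Q x) X
    (2 * 2 ^ (n.natDegree / (2 * (y + 1)))) fun b _ => card_fibre_le hn y _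
      (fun x hx => hX x (mem_filter.1 hx).1)
      fun x hx x' hx' Q hQ hy => congrFun ((mem_filter.1 hx).2.trans (mem_filter.1 hx').2.symm)
        ⟨Q, mem_filter.2 ⟨hQ, hy⟩⟩
  refine h1.trans (Nat.mul_le_mul_left _ ?_)
  refine (card_le_card (t := Fintype.piFinset fun _ : S => range (n.natDegree + 1))
    fun b hb => ?_).trans ?_
  · obtain ⟨x, hx, rfl⟩ := mem_image.1 hb
    refine Fintype.mem_piFinset.2 fun Q => mem_range.2 (Nat.lt_succ_of_le ?_)
    have h2 := sum_v_le (hX x hx).1 {Q.1}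
    have h3 := sol_deg hn (hX x hx).1 (hX x hx).2
    have h4 := ((mem_pr hn).1 (mem_filter.1 Q.2).1).1.natDegree_pos
    rw [sum_singleton] at h2
    nlinarith
  · rw [Fintype.card_piFinset, prod_const, card_range, card_univ, Fintype.card_coe]
    exact Nat.pow_le_pow_right (Nat.succ_pos _)
      (card_small_le y S fun P hP => not_lt.1 (mem_filter.1 hP).2)

omit [CharP k 2] [Fintype k] in
lemma sol_finite {n : k[X]} (hn : n ≠ 0) : {x : k[X] | x.Monic ∧ x * sig x = n}.Finite :=
  (fin_div hn).subset fun _ hx => ⟨hx.1, _, hx.2.symm⟩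

theorem upper (c : ℝ) (hc : Real.log 2 / 2 < c) : ∃ D : ℕ, ∀ n : k[X], n.Monic →
    D ≤ n.natDegree → (Set.ncard {x : k[X] | x.Monic ∧ x * sig x = n} : ℝ)
      < ((Fintype.card k : ℝ) ^ n.natDegree) ^
        (c / Real.log (Real.log ((Fintype.card k : ℝ) ^ n.natDegree))) := by
  have hl2 : 0 < Real.log 2 := Real.log_pos one_lt_two
  have hl2' : 1 / 2 < Real.log 2 := by linarith [Real.log_two_gt_d9]
  have hl2'' : Real.log 2 < 1 := by linarith [Real.log_two_lt_d9]
  obtain ⟨q, hq⟩ : ∃ q : ℝ, q = Fintype.card k := ⟨_, rfl⟩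
  have hq2 : 2 ≤ q := by rw [hq]; exact_mod_cast Fintype.one_lt_card
  have hlq : Real.log 2 ≤ Real.log q := Real.log_le_log two_pos hq2
  have hlq0 : 0 < Real.log q := by linarith
  obtain ⟨ε, hε, hε0⟩ : ∃ ε, ε = (c - Real.log 2 / 2) / 2 ∧ 0 < ε := ⟨_, rfl, by linarith⟩
  obtain ⟨t, ht, ht0, ht1⟩ : ∃ t, t = Real.log 2 / 2 / (Real.log 2 / 2 + ε) ∧ 0 < t ∧ t < 1 :=
    ⟨_, rfl, by positivity, by rw [div_lt_one (by positivity)]; linarith⟩
  obtain ⟨η, hη, hη0⟩ : ∃ η, η = (1 - t) / 3 ∧ 0 < η := ⟨_, rfl, by linarith⟩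
  have hL : Tendsto (fun N : ℕ => (N : ℝ) * Real.log q) atTop atTop :=
    tendsto_natCast_atTop_atTop.atTop_mul_const hlq0
  obtain ⟨D, hD⟩ := eventually_atTop.1 ((hL.eventually (eventually_gt_atTop 1)).and
    (((tendsto_rpow_atTop hη0).comp hL).eventually (eventually_gt_atTop (6 * q / (η ^ 2 * ε)))))
  refine ⟨D + 1, fun n hn hnD => ?_⟩
  obtain ⟨h1, h3⟩ := hD n.natDegree (by omega)
  dsimp only [Function.comp] at h3
  obtain ⟨L, hLdef⟩ : ∃ L, L = (n.natDegree : ℝ) * Real.log q := ⟨_, rfl⟩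
  have hN1 : (1 : ℝ) ≤ n.natDegree := by exact_mod_cast (by omega : 1 ≤ n.natDegree)
  rw [← hq, Real.rpow_def_of_pos (by positivity), Real.log_pow, ← hLdef]
  rw [← hLdef] at h1 h3
  have hL0 : 0 < L := by linarith
  have hLL : 0 < Real.log L := Real.log_pos h1
  obtain ⟨y, hy1, hy2⟩ : ∃ y : ℕ, t * Real.log L ≤ (y + 1 : ℝ) * Real.log q ∧
      q ^ (y + 1) ≤ q * L ^ t := by
    refine ⟨⌊t * Real.log L / Real.log q⌋₊, ?_, ?_⟩
    · rw [← div_le_iff₀ hlq0]; exact (Nat.lt_floor_add_one _).le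
    · rw [pow_succ']
      refine mul_le_mul_of_nonneg_left ?_ (by positivity)
      rw [← Real.log_le_log_iff (by positivity) (by positivity), Real.log_pow, Real.log_rpow hL0,
        ← le_div_iff₀ hlq0]
      exact Nat.floor_le (by positivity)
  have h4 := card_le hn.ne_zero y (sol_finite hn.ne_zero).toFinset fun x hx => by simpa using hx
  rw [Set.ncard_eq_toFinset_card _ (sol_finite hn.ne_zero)]
  refine lt_of_le_of_lt (Nat.cast_le.2 h4) ?_
  rw [← Real.log_lt_iff_lt_exp (by positivity)]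
  push_cast
  rw [Real.log_mul (by positivity) (by positivity), Real.log_mul (by positivity) (by positivity),
    Real.log_pow, Real.log_pow]
  push_cast
  rw [← hq]
  have h5 : ((n.natDegree / (2 * (y + 1)) : ℕ) : ℝ) * Real.log 2
      ≤ L * ((Real.log 2 / 2 + ε) / Real.log L) := by
    have h6 : ((n.natDegree / (2 * (y + 1)) : ℕ) : ℝ) ≤ L / (2 * (t * Real.log L)) := by
      refine Nat.cast_div_le.trans ?_
      push_cast
      rw [div_le_div_iff₀ (by positivity) (by positivity), hLdef]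
      rw [hLdef] at hy1
      nlinarith
    refine (mul_le_mul_of_nonneg_right h6 hl2.le).trans (le_of_eq ?_)
    rw [ht]
    field_simp
  have h7 : Real.log L ≤ L ^ η / η := Real.log_le_rpow_div hL0.le hη0
  have h8 : Real.log ((n.natDegree : ℝ) + 1) ≤ 3 * (L ^ η / η) := by
    have h9 : (n.natDegree : ℝ) + 1 ≤ 3 * L := by
      have := Real.log_two_gt_d9
      nlinarith
    refine (Real.log_le_log (by positivity) h9).trans
      ((Real.log_le_rpow_div (by positivity) hη0).trans ?_)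
    rw [Real.mul_rpow (by norm_num) hL0.le, mul_div_assoc]
    refine mul_le_mul_of_nonneg_right ?_ (by positivity)
    simpa using Real.rpow_le_rpow_of_exponent_le (by norm_num : (1 : ℝ) ≤ 3) (by linarith : η ≤ 1)
  have h9 : L = L ^ t * L ^ η * L ^ η * L ^ η := by
    rw [← Real.rpow_add hL0, ← Real.rpow_add hL0, ← Real.rpow_add hL0,
      show t + η + η + η = 1 by rw [hη]; ring, Real.rpow_one]
  have h11 : Real.log 2 ≤ Real.log ((n.natDegree : ℝ) + 1) := Real.log_le_log two_pos (by linarith)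
  have h12 : (1 : ℝ) ≤ q ^ (y + 1) := one_le_pow₀ (by linarith)
  have h10 : 2 * (q ^ (y + 1) * Real.log ((n.natDegree : ℝ) + 1)) < L * (ε / Real.log L) := by
    rw [← mul_div_assoc, lt_div_iff₀ hLL]
    have h13 : 0 ≤ Real.log ((n.natDegree : ℝ) + 1) := by linarith
    rw [div_lt_iff₀ (by positivity)] at h3
    calc _ ≤ 2 * (q * L ^ t * (3 * (L ^ η / η))) * (L ^ η / η) := by gcongr
      _ = L ^ t * L ^ η * L ^ η * (6 * q) / η ^ 2 := by ring
      _ < L ^ t * L ^ η * L ^ η * (L ^ η * (η ^ 2 * ε)) / η ^ 2 := by gcongr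
      _ = L ^ t * L ^ η * L ^ η * L ^ η * ε := by field_simp
      _ = _ := by rw [← h9]
  have h13 : L * (c / Real.log L)
      = L * ((Real.log 2 / 2 + ε) / Real.log L) + L * (ε / Real.log L) := by
    rw [hε]; ring
  nlinarith

end Pool.Agent.Lib.MP_253cbc_nt.FF
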